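import Pool.Agent.Lib_MP_4b1745_w.F
import Mathlib.Analysis.Complex.Polynomial.Basic
import Mathlib.Analysis.Complex.Cardinality

/-! # Algebraically closed associative algebras: existence, and the fields over which they exist

`FP P R` is the free product `R * P⟨x₀, x₁, …⟩` of `P`-algebras, `inc P R` the inclusion of `R`
and `var P R i` the unknown `xᵢ`. A `P`-algebra `R` is algebraically closed if it is nonzero and
every equation `f = 0` with `f ∈ (R * P⟨x₀, x₁, …⟩) \ R` has a solution in `R`.

The theorem below says that there is an algebraically closed algebra over the field of complex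
numbers, and that for a field `P` of characteristic zero the existence of an algebraically closed
`P`-algebra forces `P` to be algebraically closed, while over every algebraically closed field of
characteristic zero and of infinite transcendence degree over `ℚ` there is one. -/

set_option autoImplicit false

namespace Pool.Agent.Results.MP_4b1745_al.OverWhichFields

open Pool.Agent.LibStar

/-- The `P`-algebra `R` is algebraically closed: it is nonzero, and for every element `f` of the
free product `R * P⟨x₀, x₁, …⟩` outside `R` there are elements `r₀, r₁, …` of `R` such that the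
homomorphism which is the identity on `R` and sends `xᵢ` to `rᵢ` kills `f`. -/
def AlgebraicallyClosed (P R : Type) [Field P] [Ring R] [Algebra P R] : Prop :=
  Nontrivial R ∧ ∀ f : FP P R, (∀ a : R, f ≠ inc P R a) →
    ∃ (r : ℕ → R) (φ : FP P R →ₐ[P] R), (∀ a : R, φ (inc P R a) = a) ∧
      (∀ i, φ (var P R i) = r i) ∧ φ f = 0

lemma algebraicallyClosed_iff (P R : Type) [Field P] [Ring R] [Algebra P R] :
    AlgebraicallyClosed P R ↔ W.AC P R := by
  constructor
  · rintro ⟨h0, h⟩
    refine ⟨h0, fun f hf => ?_⟩
    obtain ⟨r, φ, h1, h2, h3⟩ := h f hf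
    have h4 : fpLift (AlgHom.id P R) r = φ := by
      apply fp_hom_ext
      · intro a
        rw [fpLift_inc, h1]
        rfl
      · intro i
        rw [fpLift_var, h2]
    exact ⟨r, by rw [h4]; exact h3⟩
  · rintro ⟨h0, h⟩
    refine ⟨h0, fun f hf => ?_⟩
    obtain ⟨x, hx⟩ := h f hf
    exact ⟨x, fpLift (AlgHom.id P R) x, fun a => fpLift_inc _ _ a,
      fun i => fpLift_var _ _ i, hx⟩

theorem result :
    (∃ (R : Type) (_ : Ring R) (_ : Algebra ℂ R), AlgebraicallyClosed ℂ R) ∧
    ∀ (P : Type) [Field P] [CharZero P],
      ((∃ (R : Type) (_ : Ring R) (_ : Algebra P R), AlgebraicallyClosed P R) →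
        IsAlgClosed P) ∧
      (IsAlgClosed P → (∃ v : ℕ → P, AlgebraicIndependent ℚ v) →
        ∃ (R : Type) (_ : Ring R) (_ : Algebra P R), AlgebraicallyClosed P R) := by
  have main : ∀ (P : Type) [Field P] [CharZero P], IsAlgClosed P →
      (∃ v : ℕ → P, AlgebraicIndependent ℚ v) →
        ∃ (R : Type) (_ : Ring R) (_ : Algebra P R), AlgebraicallyClosed P R := by
    rintro P _ _ hP ⟨v, hv⟩
    obtain ⟨R, i1, i2, h⟩ := W.exists_over P v hv
    exact ⟨R, i1, i2, (algebraicallyClosed_iff P R).mpr h⟩
  refine ⟨?_, fun P _ _ => ⟨?_, main P⟩⟩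
  · apply main ℂ inferInstance (W.exists_algInd ℂ ?_)
    rw [Cardinal.mk_complex]
    exact Cardinal.aleph0_lt_continuum
  · rintro ⟨R, _, _, h⟩
    exact W.A3 ((algebraicallyClosed_iff P R).mp h)

end Pool.Agent.Results.MP_4b1745_al.OverWhichFields
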